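import Pool.Agent.Helper75.AL.Sts
import Pool.Agent.Helper68.UL.Comp

/-!
Completed L-functions, rescaled at a height `t`, satisfy the hypotheses of the abstract local law.
-/

set_option autoImplicit false
set_option maxHeartbeats 1000000

open Complex MeasureTheory Filter Topology Set
open scoped ComplexConjugate

namespace Pool.Agent.Helper68.LF

open Pool.Agent.Helper75.AL
open Pool.Agent.Helper68.UL

/-- growth along a segment -/
theorem path {φ : ℂ → ℂ} (hφ : Differentiable ℂ φ) {z0 z1 : ℂ} {M : ℝ}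
    (hne : ∀ τ ∈ Icc (0 : ℝ) 1, φ (z0 + τ * (z1 - z0)) ≠ 0)
    (hM : ∀ τ ∈ Icc (0 : ℝ) 1, (logDeriv φ (z0 + τ * (z1 - z0)) * (z1 - z0)).re ≤ M) :
    ‖φ z1‖ ≤ ‖φ z0‖ * Real.exp M := by
  set u : ℝ → ℝ := fun τ => Real.log ‖φ (z0 + τ * (z1 - z0))‖ with hu
  have hd : ∀ τ ∈ Icc (0 : ℝ) 1, HasDerivAt u (logDeriv φ (z0 + τ * (z1 - z0)) * (z1 - z0)).re τ := by
    intro τ hτ
    have h1 : HasDerivAt (fun τ : ℝ => z0 + (τ : ℂ) * (z1 - z0)) (z1 - z0) τ := by
      have := ((Complex.ofRealCLM.hasDerivAt (x := τ)).mul_const (z1 - z0)).const_add z0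
      simpa using this
    have h2 : HasDerivAt (fun τ : ℝ => φ (z0 + (τ : ℂ) * (z1 - z0)))
        (deriv φ (z0 + τ * (z1 - z0)) * (z1 - z0)) τ :=
      (hφ (z0 + τ * (z1 - z0))).hasDerivAt.comp τ h1
    have h3 := hasDerivAt_log_norm h2 (hne τ hτ)
    refine h3.congr_deriv ?_
    rw [logDeriv_apply]
    congr 1
    ring
  have hmv := Convex.image_sub_le_mul_sub_of_deriv_le (convex_Icc (0 : ℝ) 1) (f := u)
    (fun τ hτ => (hd τ hτ).continuousAt.continuousWithinAt)
    (fun τ hτ => ((hd τ (interior_subset hτ)).differentiableAt.differentiableWithinAt)) (C := M)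
    (fun τ hτ => by rw [(hd τ (interior_subset hτ)).deriv]; exact hM τ (interior_subset hτ))
    0 (by simp) 1 (by simp) zero_le_one
  have e0 : (z0 + ((0 : ℝ) : ℂ) * (z1 - z0) : ℂ) = z0 := by push_cast; ring
  have e1 : (z0 + ((1 : ℝ) : ℂ) * (z1 - z0) : ℂ) = z1 := by push_cast; ring
  have n0 := hne 0 (by simp)
  have n1 := hne 1 (by simp)
  rw [hu] at hmv
  simp only at hmv
  rw [e0, e1] at hmv
  rw [e0] at n0
  rw [e1] at n1
  have p0 : 0 < ‖φ z0‖ := norm_pos_iff.2 n0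
  have p1 : 0 < ‖φ z1‖ := norm_pos_iff.2 n1
  calc ‖φ z1‖ = Real.exp (Real.log ‖φ z1‖) := (Real.exp_log p1).symm
    _ ≤ Real.exp (Real.log ‖φ z0‖ + M) := Real.exp_le_exp.2 (by linarith)
    _ = _ := by rw [Real.exp_add, Real.exp_log p0]

/-- The completed L-functions of degree `m` (with `k` roots of the polynomial), with a height. -/
structure Idx (m k : ℕ) (K : ℝ → ℝ) where
  c : ℝ
  A : ℝ
  μ : Fin m → ℝ
  ρ : Fin k → ℂ
  ε : ℂ
  L : ℂ → ℂ
  F : ℂ → ℂ
  t : ℝ
  h : ∀ δ > 0, CL (1 / 2 + δ) (K δ) c A μ ρ ε L F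

namespace Idx

variable {m k : ℕ} {K : ℝ → ℝ}

/-- logarithm of the analytic conductor -/
noncomputable def Lam (x : Idx m k K) : ℝ := Real.log (UL.cond x.c x.A x.μ x.t)

/-- the unit which makes `F` real on the critical line -/
noncomputable def un (x : Idx m k K) : ℂ := if x.ε = 1 then 1 else I

/-- the centred function -/
def φ (x : Idx m k K) (z : ℂ) : ℂ := x.F (x.c + z)

/-- the size of `F` at the height `t`, without the `L`-factor -/
noncomputable def N (x : Idx m k K) : ℝ := ‖x.φ (1 + x.t * I)‖ * Real.exp (-(x.Lam / 2))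

/-- `F (c + i (t + z)) / N` -/
noncomputable def G (x : Idx m k K) (z : ℂ) : ℂ := x.un * x.φ ((x.t + z) * I) / x.N

variable (x : Idx m k K)

lemma φ_diff : Differentiable ℂ x.φ :=
  (x.h 1 one_pos).ent.comp (by fun_prop)

lemma φ_cj (z : ℂ) : x.φ (conj z) = conj (x.φ z) := by
  unfold φ
  rw [← (x.h 1 one_pos).cj, map_add, Complex.conj_ofReal]

lemma φ_fe (z : ℂ) : x.φ (-z) = x.ε * x.φ z := by
  unfold φ
  rw [← (x.h 1 one_pos).fe]
  congr 1
  ring

lemma sgn : x.ε = 1 ∨ x.ε = -1 := (x.h 1 one_pos).sgn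

lemma un_norm : ‖x.un‖ = 1 := by
  unfold un
  split_ifs <;> simp

lemma un_conj : conj x.un = x.ε * x.un := by
  unfold un
  rcases x.sgn with h | h
  · rw [h]; simp
  · have : ¬ ((-1 : ℂ) = 1) := by norm_num
    rw [h, if_neg this]; simp

lemma un_sq : x.ε * x.un * x.un = 1 := by
  unfold un
  rcases x.sgn with h | h
  · rw [h]; simp
  · have : ¬ ((-1 : ℂ) = 1) := by norm_num
    rw [h, if_neg this, neg_one_mul, neg_mul, Complex.I_mul_I, neg_neg]

lemma φ_refl (a b : ℝ) : ‖x.φ (-a + b * I)‖ = ‖x.φ (a + b * I)‖ := by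
  have e : (-a + b * I : ℂ) = -(conj (a + b * I : ℂ)) := by
    rw [map_add, map_mul, Complex.conj_ofReal, Complex.conj_ofReal, Complex.conj_I]; ring
  have h1 : ‖x.ε‖ = 1 := by
    rcases x.sgn with h | h <;> rw [h] <;> simp
  rw [e, x.φ_fe, x.φ_cj, norm_mul, h1, one_mul, Complex.norm_conj]

lemma A0 : 1 ≤ x.A := (x.h 1 one_pos).A1

lemma μ0 (j : Fin m) : 0 < x.c + x.μ j := (x.h 1 one_pos).μ0 j

lemma Lam_eq : x.Lam = Real.log x.A + ∑ j, Real.log (x.c + x.μ j + |x.t| + 2) := by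
  unfold Lam UL.cond
  have h1 : ∀ j ∈ Finset.univ, x.c + x.μ j + |x.t| + 2 ≠ 0 := fun j _ => by
    have := x.μ0 j
    have := abs_nonneg x.t
    positivity
  rw [Real.log_mul (by have := x.A0; positivity) (Finset.prod_ne_zero_iff.2 h1), Real.log_prod h1]

/-- comparison of the logarithmic derivative with half the logarithm of the conductor, from above -/
lemma V_up {z : ℂ} {q : ℝ} (hq : 0 ≤ q) (hz : ‖z - (1 + x.t * I)‖ ≤ q) (hz0 : 1 / 2 ≤ z.re) :
    V x.c x.A x.μ z ≤ x.Lam / 2 + m / 2 * Real.log (1 + q) := by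
  rw [x.Lam_eq, V]
  have hterm : ∀ j : Fin m, Real.log ‖z + (x.c + x.μ j : ℝ)‖ / 2 ≤
      Real.log (x.c + x.μ j + |x.t| + 2) / 2 + Real.log (1 + q) / 2 := by
    intro j
    have h1 := x.μ0 j
    have h2 := abs_nonneg x.t
    have h3 : ‖z + (x.c + x.μ j : ℝ)‖ ≤ (x.c + x.μ j + |x.t| + 2) * (1 + q) := by
      have e : z + ((x.c + x.μ j : ℝ) : ℂ) = (z - (1 + x.t * I)) + (1 + x.t * I) +
        ((x.c + x.μ j : ℝ) : ℂ) := by ring
      rw [e]
      refine (norm_add_le _ _).trans ?_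
      have h4 : ‖(1 + x.t * I : ℂ)‖ ≤ 1 + |x.t| := by
        refine (norm_add_le _ _).trans ?_
        simp
      have h5 := norm_add_le (z - (1 + x.t * I)) (1 + x.t * I)
      rw [Complex.norm_real, Real.norm_of_nonneg h1.le]
      nlinarith
    have h4 : 0 < ‖z + (x.c + x.μ j : ℝ)‖ := by
      refine lt_of_lt_of_le ?_ (Complex.re_le_norm _)
      rw [add_re, ofReal_re]
      linarith
    have h5 := Real.log_le_log h4 h3
    rw [Real.log_mul (by positivity) (by positivity)] at h5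
    linarith
  have hsum := Finset.sum_le_sum fun j (_ : j ∈ (Finset.univ : Finset (Fin m))) => hterm j
  rw [Finset.sum_add_distrib, Finset.sum_const, Finset.card_univ, Fintype.card_fin, nsmul_eq_mul,
    ← Finset.sum_div, ← Finset.sum_div] at hsum
  rw [← Finset.sum_div]
  linarith

/-- and from below -/
lemma V_low' {z : ℂ} {R : ℝ} (hR : 0 ≤ R) (hz : |z.im - x.t| ≤ R) (hz0 : 1 / 2 ≤ z.re) :
    x.Lam / 2 - m / 2 * Real.log (8 * (R + 1)) ≤ V x.c x.A x.μ z := by
  rw [x.Lam_eq, V]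
  have hterm : ∀ j : Fin m, Real.log (x.c + x.μ j + |x.t| + 2) / 2 - Real.log (8 * (R + 1)) / 2 ≤
      Real.log ‖z + (x.c + x.μ j : ℝ)‖ / 2 := by
    intro j
    have h1 := x.μ0 j
    have h2 := abs_nonneg x.t
    set w := z + ((x.c + x.μ j : ℝ) : ℂ) with hw
    have hwre : w.re = z.re + (x.c + x.μ j) := by rw [hw, add_re, ofReal_re]
    have hwim : w.im = z.im := by rw [hw, add_im, ofReal_im, add_zero]
    have h3 : x.c + x.μ j + |x.t| + 2 ≤ 8 * (R + 1) * ‖w‖ := by
      have a1 := Complex.re_le_norm w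
      have a2 := Complex.abs_im_le_norm w
      rw [hwre] at a1
      rw [hwim] at a2
      have a3 : |x.t| ≤ |z.im| + R := by
        have : |x.t| ≤ |z.im| + |z.im - x.t| := by
          calc |x.t| = |z.im - (z.im - x.t)| := by congr 1; ring
            _ ≤ _ := abs_sub _ _
        linarith
      have a0 := norm_nonneg w
      have b1 : x.c + x.μ j + |x.t| + 2 ≤ 8 * ‖w‖ + R := by linarith
      rcases le_total R (4 * ‖w‖) with h | h
      · nlinarith
      · nlinarith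
    have h4 : 0 < ‖w‖ := by
      refine lt_of_lt_of_le ?_ (Complex.re_le_norm _)
      rw [hwre]
      linarith
    have h5 := Real.log_le_log (by positivity) h3
    rw [Real.log_mul (by positivity) (by positivity)] at h5
    linarith
  have hsum := Finset.sum_le_sum fun j (_ : j ∈ (Finset.univ : Finset (Fin m))) => hterm j
  rw [Finset.sum_sub_distrib, Finset.sum_const, Finset.card_univ, Fintype.card_fin, nsmul_eq_mul,
    ← Finset.sum_div, ← Finset.sum_div] at hsum
  rw [← Finset.sum_div]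
  linarith

end Idx

/-- the logarithmic derivative to the right of `Re z = 1/2 + η` -/
theorem ld (m k : ℕ) (K : ℝ → ℝ) {η : ℝ} (hη : 0 < η) : ∃ C : ℝ, 0 ≤ C ∧ ∀ x : Idx m k K, ∀ z : ℂ,
    1 / 2 + η ≤ z.re → x.φ z ≠ 0 ∧ ‖logDeriv x.φ z - V x.c x.A x.μ z‖ ≤ C := by
  obtain ⟨KR, hKR1, hKR⟩ := digR
  refine ⟨k / (η / 2) + m * KR + 2 * K (η / 2) ^ 2 / (η / 2), ?_, fun x z hz => ?_⟩
  · have : 0 ≤ KR := by linarith
    positivity
  · exact (x.h (η / 2) (by positivity)).ld_bound (by positivity) hKR (by linarith)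

end Pool.Agent.Helper68.LF
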