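import Pool.Agent.Helper68.LF.Ok

/-!
The local law for completed L-functions, from the abstract one.
-/

set_option autoImplicit false
set_option maxHeartbeats 1000000

open Complex MeasureTheory Filter Topology Set
open scoped ComplexConjugate

namespace Pool.Agent.Helper68.LF

open Pool.Agent.Helper75.AL
open Pool.Agent.Helper68.UL

variable {m k : ℕ} {K : ℝ → ℝ}

namespace Idx

variable (x : Idx m k K)

lemma φ_one_ne : x.φ (1 + x.t * I) ≠ 0 := by
  obtain ⟨C, _, hC⟩ := ld m k K (η := 1 / 2) (by norm_num)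
  exact (hC x _ (by simp; norm_num)).1

lemma N_pos : 0 < x.N := mul_pos (norm_pos_iff.2 x.φ_one_ne) (Real.exp_pos _)

lemma G_diff : Differentiable ℂ x.G := by
  unfold G
  exact ((x.φ_diff.comp (by fun_prop)).const_mul _).div_const _

lemma G_re (z : ℂ) : x.G (conj z) = conj (x.G z) := by
  unfold G
  have e : ((x.t : ℂ) + conj z) * I = -(conj (((x.t : ℂ) + z) * I)) := by
    rw [map_mul, map_add, Complex.conj_ofReal, Complex.conj_I]; ring
  rw [e, x.φ_fe, x.φ_cj, map_div₀, map_mul, x.un_conj, Complex.conj_ofReal]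
  ring

lemma S_eq (s : ℝ) (η : ℂ) : Pool.Agent.Helper75.LQ.S x.G s η = Ph x.φ (x.t + s) η / (x.N : ℂ) ^ 2 := by
  unfold Pool.Agent.Helper75.LQ.S Ph G
  have e1 : ((x.t : ℂ) + (s + I * η)) * I = -(η - ((x.t + s : ℝ) : ℂ) * I) := by
    have : (I : ℂ) * I = -1 := Complex.I_mul_I
    push_cast
    linear_combination η * this
  have e2 : ((x.t : ℂ) + (s - I * η)) * I = η + ((x.t + s : ℝ) : ℂ) * I := by
    have : (I : ℂ) * I = -1 := Complex.I_mul_I
    push_cast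
    linear_combination -η * this
  rw [e1, e2, x.φ_fe]
  have h := x.un_sq
  calc _ = (x.ε * x.un * x.un) * (x.φ (η + ((x.t + s : ℝ) : ℂ) * I) *
        x.φ (η - ((x.t + s : ℝ) : ℂ) * I)) / (x.N : ℂ) ^ 2 := by ring
    _ = _ := by rw [h, one_mul]

lemma Lag_G (s : ℝ) (n : ℕ) : Pool.Agent.Helper75.LQ.Lag x.G s n =
    Pool.Agent.Helper68.UL.Lag x.φ n (x.t + s) / (x.N ^ 2 * (2 * n).factorial) := by
  have h1 := (real_iter (Ph_diff x.φ_diff (x.t + s))
    (h := fun u : ℝ => ‖x.φ (u + ((x.t + s : ℝ) : ℂ) * I)‖ ^ 2)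
    (fun u => Ph_real x.φ_cj (x.t + s) u) (2 * n)).1 0
  have h2 : Pool.Agent.Helper75.LQ.S x.G s = fun η => Ph x.φ (x.t + s) η / (x.N : ℂ) ^ 2 := by
    funext η
    exact x.S_eq s η
  unfold Pool.Agent.Helper75.LQ.Lag Pool.Agent.Helper75.LQ.tc
  rw [h2, iteratedDeriv_div_const, ← Complex.ofReal_zero, ← h1]
  have h3 : ((iteratedDeriv (2 * n) (fun u : ℝ => ‖x.φ (u + ((x.t + s : ℝ) : ℂ) * I)‖ ^ 2) 0 : ℝ) : ℂ) /
      (x.N : ℂ) ^ 2 / ((2 * n).factorial : ℂ) = ((Pool.Agent.Helper68.UL.Lag x.φ n (x.t + s) /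
        (x.N ^ 2 * (2 * n).factorial) : ℝ) : ℂ) := by
    unfold Pool.Agent.Helper68.UL.Lag
    push_cast
    rw [div_div]
  rw [h3, Complex.ofReal_re]

lemma Lag_sgn (s : ℝ) (n : ℕ) : (0 ≤ Pool.Agent.Helper75.LQ.Lag x.G s n ↔
    0 ≤ Pool.Agent.Helper68.UL.Lag x.φ n (x.t + s)) ∧ (0 < Pool.Agent.Helper75.LQ.Lag x.G s n ↔
      0 < Pool.Agent.Helper68.UL.Lag x.φ n (x.t + s)) := by
  have h : 0 < x.N ^ 2 * ((2 * n).factorial : ℝ) := by
    have h1 := x.N_pos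
    have h2 : (0 : ℝ) < (2 * n).factorial := by exact_mod_cast (2 * n).factorial_pos
    positivity
  rw [x.Lag_G]
  refine ⟨⟨fun h1 => ?_, fun h1 => by positivity⟩, ⟨fun h1 => ?_, fun h1 => by positivity⟩⟩
  · by_contra h2
    rw [not_le] at h2
    exact absurd h1 (not_le.2 (div_neg_of_neg_of_pos h2 h))
  · by_contra h2
    rw [not_lt] at h2
    exact absurd h1 (not_lt.2 (div_nonpos_of_nonpos_of_nonneg h2 h.le))

lemma φ_abs (a b : ℝ) : ‖x.φ ((|a| : ℝ) + b * I)‖ = ‖x.φ (a + b * I)‖ := by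
  rcases abs_cases a with ⟨h, _⟩ | ⟨h, _⟩
  · rw [h]
  · rw [h, Complex.ofReal_neg, x.φ_refl]

end Idx

theorem ag_of (x : ℕ → Idx m k K) (hx : Tendsto (fun j => (x j).Lam) atTop atTop) :
    AG (fun j => (x j).G) (fun j => (x j).Lam) where
  lim := hx
  ent j := (x j).G_diff
  re j z := (x j).G_re z
  ok η hη R := by
    obtain ⟨X, hX⟩ := ok_of m k K hη R
    filter_upwards [hx.eventually_ge_atTop X] with j hj
    exact hX (x j) hj

/-- **Laguerre inequalities give a zero-free box and a bound on the line.** -/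
theorem conv {K0 : ℝ} (hK0 : 0 < K0) (hAL : ∀ (G : ℕ → ℂ → ℂ) (L : ℕ → ℝ) (κ : ℝ), AG G L → 0 ≤ κ →
    ALag κ G L → ALine (K0 * κ) G L ∧ ANoZ (K0 * κ) G) (m k : ℕ) (K : ℝ → ℝ) {κ : ℝ} (hκ : 0 < κ) :
    ∃ R : ℝ, ∀ x : Idx m k K, R ≤ x.Lam →
      (∀ (t' : ℝ) (n : ℕ), |t' - x.t| ≤ R → κ * x.Lam ≤ n → 0 ≤ Pool.Agent.Helper68.UL.Lag x.φ n t') →
        (∀ z : ℂ, |z.im - x.t| ≤ 1 → 2 * K0 * κ < |z.re| → x.φ z ≠ 0) ∧
        ‖x.φ (x.t * I)‖ ≤ ‖x.φ (1 + x.t * I)‖ * Real.exp (x.Lam * (2 * K0 * κ - 1 / 2)) := by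
  by_contra hcon
  push Not at hcon
  choose x hx1 hx2 hx3 using fun j : ℕ => hcon (j : ℝ)
  have hlim : Tendsto (fun j => (x j).Lam) atTop atTop :=
    tendsto_atTop_mono hx1 tendsto_natCast_atTop_atTop
  have hAG := ag_of x hlim
  have hLag : ALag κ (fun j => (x j).G) (fun j => (x j).Lam) := by
    intro η hη R
    filter_upwards [eventually_ge_atTop ⌈R⌉₊] with j hj s hs n hn
    have hR : R ≤ (j : ℝ) := (Nat.le_ceil _).trans (by exact_mod_cast hj)
    rw [((x j).Lag_sgn s n).1]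
    refine hx2 j ((x j).t + s) n (by rw [add_sub_cancel_left]; linarith) (le_trans ?_ hn)
    have := (x j).Lam_nonneg
    nlinarith
  obtain ⟨h1, h2⟩ := hAL _ _ κ hAG hκ.le hLag
  have hKκ : 0 < K0 * κ := mul_pos hK0 hκ
  obtain ⟨C, _, hC⟩ := ld m k K (η := 1 / 2) (by norm_num)
  obtain ⟨j, hj1, hj2⟩ := ((h1 (K0 * κ) hKκ 0).and (h2 (K0 * κ) hKκ 1)).exists
  have hpos : 0 < ‖(x j).φ (1 + (x j).t * I)‖ := norm_pos_iff.2 (x j).φ_one_ne
  refine absurd (hx3 j ?_) (not_lt.2 ?_)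
  · intro z hz1 hz2 h0
    have h0' : ‖(x j).φ ((|z.re| : ℝ) + z.im * I)‖ = 0 := by
      rw [(x j).φ_abs, Complex.re_add_im, h0, norm_zero]
    rcases le_or_gt |z.re| 1 with h3 | h3
    · have h4 := hj2 (((z.im - (x j).t : ℝ) : ℂ) + (|z.re| : ℝ) * I) (by simpa using hz1)
        (by simp only [add_im, ofReal_im, mul_im, ofReal_re, I_im, I_re]; linarith) (by simpa using h3)
      apply h4
      rw [← norm_eq_zero, (x j).normG, show (x j).t + (z.im - (x j).t) = z.im by ring, h0']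
      simp
    · have h4 := (hC (x j) (((|z.re| : ℝ) : ℂ) + z.im * I) (by
        simp only [add_re, ofReal_re, mul_re, ofReal_im, I_re, I_im]; linarith)).1
      exact h4 (norm_eq_zero.1 h0')
  · have h3 := hj1 0 (by simp)
    have h4 := (x j).normG 0 0
    rw [show ((0 : ℝ) : ℂ) + ((0 : ℝ) : ℂ) * I = ((0 : ℝ) : ℂ) by push_cast; ring, add_zero,
      Complex.ofReal_zero, zero_add] at h4
    rw [Complex.ofReal_zero] at h3
    rw [h4, ← le_div_iff₀ (Real.exp_pos _), div_le_iff₀ hpos, ← Real.exp_sub] at h3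
    refine h3.trans_eq ?_
    rw [mul_comm]
    congr 2
    ring

/-- **A zero-free box gives Laguerre inequalities.** -/
theorem direct (hW5 : St_W5) (m k : ℕ) (K : ℝ → ℝ) {b κ : ℝ} (hb : 0 ≤ b) (hbκ : b < 2 * κ) :
    ∃ R : ℝ, ∀ x : Idx m k K, R ≤ x.Lam →
      (∀ z : ℂ, |z.im - x.t| ≤ R → b < |z.re| → x.φ z ≠ 0) →
        ∀ n : ℕ, κ * x.Lam ≤ n → 0 < Pool.Agent.Helper68.UL.Lag x.φ n x.t := by
  by_contra hcon
  push Not at hcon
  choose x hx1 hx2 n hn1 hn2 using fun j : ℕ => hcon (j : ℝ)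
  have hlim : Tendsto (fun j => (x j).Lam) atTop atTop :=
    tendsto_atTop_mono hx1 tendsto_natCast_atTop_atTop
  have hAG := ag_of x hlim
  have hNoZ : ANoZ b (fun j => (x j).G) := by
    intro η hη R
    filter_upwards [eventually_ge_atTop ⌈R⌉₊] with j hj w hw1 hw2 hw3 h0
    have hR : R ≤ (j : ℝ) := (Nat.le_ceil _).trans (by exact_mod_cast hj)
    have hw : w = ((w.re : ℝ) : ℂ) + (w.im : ℝ) * I := (Complex.re_add_im w).symm
    rw [hw, ← norm_eq_zero, (x j).normG, mul_eq_zero, div_eq_zero_iff] at h0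
    rcases h0 with (h0 | h0) | h0
    · refine hx2 j (((w.im : ℝ) : ℂ) + ((x j).t + w.re : ℝ) * I) ?_ ?_ (norm_eq_zero.1 h0)
      · simp only [add_im, ofReal_im, mul_im, ofReal_re, I_im, I_re]
        rw [show 0 + (((x j).t + w.re) * 1 + 0 * 0) - (x j).t = w.re by ring]
        linarith
      · simp only [add_re, ofReal_re, mul_re, ofReal_im, I_re, I_im]
        rw [abs_of_pos (by linarith)]
        linarith
    · exact absurd h0 (norm_ne_zero_iff.2 (x j).φ_one_ne)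
    · exact absurd h0 (Real.exp_pos _).ne'
  have h1 := hW5 _ _ b κ hAG hb (by linarith) hbκ hNoZ 0
  obtain ⟨C, hC⟩ := CL.lag m k (β := 1 / 2 + 1 / 2) (K := K (1 / 2)) (δ := 1) (by norm_num) (by norm_num)
  obtain ⟨j, hj1, hj2⟩ := (h1.and (hlim.eventually_ge_atTop C)).exists
  have h2 : 0 < Pool.Agent.Helper68.UL.Lag (x j).φ (n j) (x j).t := by
    rcases le_or_gt (n j : ℝ) (2 * (x j).Lam) with h3 | h3
    · have h4 := hj1 0 (by simp) (n j) (hn1 j) h3
      rw [((x j).Lag_sgn 0 (n j)).2, add_zero] at h4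
      exact h4
    · refine hC (x j).c (x j).A (x j).μ (x j).ρ (x j).ε (x j).L (x j).F ((x j).h (1 / 2) (by norm_num))
        (x j).t (n j) ?_
      have e : (1 / 2 + 1 / 2 + 1 : ℝ) / 2 = 1 := by norm_num
      rw [e, one_mul]
      have : Real.log (UL.cond (x j).c (x j).A (x j).μ (x j).t) = (x j).Lam := rfl
      rw [this]
      linarith
  exact absurd h2 (not_lt.2 (hn2 j))

end Pool.Agent.Helper68.LF
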