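import Pool.Agent.Helper68.LF.Idx

/-!
The growth hypotheses of the abstract local law for completed L-functions.
-/

set_option autoImplicit false
set_option maxHeartbeats 1000000

open Complex MeasureTheory Filter Topology Set
open scoped ComplexConjugate

namespace Pool.Agent.Helper68.LF

open Pool.Agent.Helper75.AL
open Pool.Agent.Helper68.UL

variable {m k : ℕ} {K : ℝ → ℝ}

lemma Idx.Lam_nonneg (x : Idx m k K) : 0 ≤ x.Lam := by
  rw [x.Lam_eq]
  refine add_nonneg (Real.log_nonneg x.A0) (Finset.sum_nonneg fun j _ => Real.log_nonneg ?_)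
  have := x.μ0 j
  have := abs_nonneg x.t
  linarith

/-- comparison of the values at two points near `1 + i t` -/
theorem seg (m k : ℕ) (K : ℝ → ℝ) {η q : ℝ} (hη : 0 < η) (hq : 0 ≤ q) : ∃ C : ℝ, 0 ≤ C ∧
    ∀ x : Idx m k K, ∀ z z' : ℂ, ‖z - (1 + x.t * I)‖ ≤ q → ‖z' - (1 + x.t * I)‖ ≤ q →
      1 / 2 + η ≤ z.re → 1 / 2 + η ≤ z'.re →
        ‖x.φ z'‖ ≤ ‖x.φ z‖ * Real.exp (x.Lam / 2 * (z'.re - z.re) + C) := by
  obtain ⟨C, hC0, hC⟩ := ld m k K hη
  set D : ℝ := m / 2 * Real.log (8 * (q + 1)) with hD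
  have hD0 : 0 ≤ D := by
    have : 0 ≤ Real.log (8 * (q + 1)) := Real.log_nonneg (by linarith)
    positivity
  refine ⟨(C + D) * (2 * q), by positivity, fun x z z' hz hz' h1 h2 => ?_⟩
  have hmem : ∀ τ ∈ Icc (0 : ℝ) 1, ‖(z + τ * (z' - z)) - (1 + x.t * I)‖ ≤ q ∧
      1 / 2 + η ≤ (z + τ * (z' - z)).re := by
    intro τ hτ
    constructor
    · have e : (z + τ * (z' - z)) - (1 + x.t * I) = ((1 - τ : ℝ) : ℂ) * (z - (1 + x.t * I)) +
          ((τ : ℝ) : ℂ) * (z' - (1 + x.t * I)) := by push_cast; ring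
      rw [e]
      refine (norm_add_le _ _).trans ?_
      rw [norm_mul, norm_mul, Complex.norm_real, Complex.norm_real, Real.norm_of_nonneg hτ.1,
        Real.norm_of_nonneg (by linarith [hτ.2])]
      nlinarith [hτ.1, hτ.2, mul_le_mul_of_nonneg_left hz (sub_nonneg.2 hτ.2),
        mul_le_mul_of_nonneg_left hz' hτ.1]
    · have e : (z + τ * (z' - z)).re = (1 - τ) * z.re + τ * z'.re := by
        rw [add_re, Complex.re_ofReal_mul, sub_re]; ring
      rw [e]
      nlinarith [hτ.1, hτ.2, mul_le_mul_of_nonneg_left h1 (sub_nonneg.2 hτ.2),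
        mul_le_mul_of_nonneg_left h2 hτ.1]
  refine path x.φ_diff (fun τ hτ => (hC x _ (hmem τ hτ).2).1) fun τ hτ => ?_
  obtain ⟨m1, m2⟩ := hmem τ hτ
  set ζ : ℂ := z + τ * (z' - z) with hζ
  have h3 := (hC x ζ m2).2
  have hdist : ‖z' - z‖ ≤ 2 * q := by
    have e : z' - z = (z' - (1 + x.t * I)) - (z - (1 + x.t * I)) := by ring
    rw [e]
    exact (norm_sub_le _ _).trans (by linarith)
  have hV1 := x.V_up (z := ζ) hq m1 (by linarith)
  have him : |ζ.im - x.t| ≤ q := by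
    have := (Complex.abs_im_le_norm (ζ - (1 + x.t * I))).trans m1
    simpa using this
  have hV2 := x.V_low' (z := ζ) hq him (by linarith)
  have hlog : m / 2 * Real.log (1 + q) ≤ D := by
    rw [hD]
    gcongr
    linarith
  have hVV : |V x.c x.A x.μ ζ - x.Lam / 2| ≤ D := by
    rw [abs_le]
    constructor <;> linarith
  have e1 : logDeriv x.φ ζ * (z' - z) = ((x.Lam / 2 : ℝ) : ℂ) * (z' - z) +
      ((logDeriv x.φ ζ - V x.c x.A x.μ ζ) * (z' - z) +
        ((V x.c x.A x.μ ζ - x.Lam / 2 : ℝ) : ℂ) * (z' - z)) := by push_cast; ring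
  rw [e1, add_re, Complex.re_ofReal_mul, sub_re]
  refine add_le_add le_rfl ?_
  refine (Complex.re_le_norm _).trans ((norm_add_le _ _).trans ?_)
  rw [norm_mul, norm_mul, Complex.norm_real, Real.norm_eq_abs, add_mul]
  gcongr

/-- the class of `φ` -/
theorem cls1 (m k : ℕ) (K : ℝ → ℝ) : ∃ C : ℝ, 1 ≤ C ∧ ∀ x : Idx m k K, Cls 1 C x.φ := by
  obtain ⟨C, hC, h⟩ := CL.cls m k (β := 1 / 2 + 1 / 4) (K := K (1 / 4)) (δ := 1 / 2) (by norm_num)
    (by norm_num) (by norm_num)
  refine ⟨C, hC, fun x => ?_⟩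
  have := (h x.c x.A x.μ x.ρ x.ε x.L x.F (x.h (1 / 4) (by norm_num))).1
  norm_num at this
  exact this

lemma Idx.normG (x : Idx m k K) (s y : ℝ) :
    ‖x.G (s + y * I)‖ = ‖x.φ (y + (x.t + s : ℝ) * I)‖ / ‖x.φ (1 + x.t * I)‖ * Real.exp (x.Lam / 2) := by
  have e : ((x.t : ℂ) + (s + y * I)) * I = -(y : ℂ) + ((x.t + s : ℝ) : ℂ) * I := by
    have : (I : ℂ) * I = -1 := Complex.I_mul_I
    push_cast
    linear_combination (y : ℂ) * this
  unfold Idx.G
  rw [e, norm_div, norm_mul, x.un_norm, one_mul, x.φ_refl, Complex.norm_real]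
  unfold Idx.N
  rw [Real.norm_of_nonneg (by positivity), Real.exp_neg, div_mul_eq_mul_div, ← div_div,
    div_inv_eq_mul, div_mul_eq_mul_div]

/-- **The completed L-functions satisfy the hypotheses of the local law.** -/
theorem ok_of (m k : ℕ) (K : ℝ → ℝ) {η : ℝ} (hη : 0 < η) (R : ℝ) : ∃ X : ℝ, ∀ x : Idx m k K,
    X ≤ x.Lam → Ok η R x.G x.Lam := by
  obtain ⟨η0, hη0⟩ : ∃ η0 : ℝ, η0 = min η (1 / 2) := ⟨_, rfl⟩
  have h01 : 0 < η0 := by rw [hη0]; exact lt_min hη (by norm_num)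
  have h02 : η0 ≤ η := by rw [hη0]; exact min_le_left _ _
  have h03 : η0 ≤ 1 / 2 := by rw [hη0]; exact min_le_right _ _
  obtain ⟨C1, hC10, hC1⟩ := seg m k K h01 (q := 10 + |R|) (by positivity)
  obtain ⟨C2, hC21, hC2⟩ := cls1 m k K
  obtain ⟨C3, hC30, hC3⟩ := ld m k K (η := 1 / 2) (by norm_num)
  refine ⟨max (C1 / η) ((C2 ^ 2 / 4 + 1 + C2 + m + C3) / η), fun x hx => ?_⟩
  have hx1 : C1 ≤ η * x.Lam := by
    have := (le_max_left _ _).trans hx
    rw [div_le_iff₀ hη] at this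
    linarith
  have hx2 : C2 ^ 2 / 4 + 1 + C2 + m + C3 ≤ η * x.Lam := by
    have := (le_max_right _ _).trans hx
    rw [div_le_iff₀ hη] at this
    linarith
  have hL0 := x.Lam_nonneg
  have hn0 : 0 < ‖x.φ (1 + x.t * I)‖ := norm_pos_iff.2 (hC3 x _ (by simp; norm_num)).1
  constructor
  · intro w
    obtain ⟨s, y, rfl⟩ : ∃ s y : ℝ, w = s + y * I := ⟨w.re, w.im, (Complex.re_add_im w).symm⟩
    have hs : |s| ≤ ‖(s + y * I : ℂ)‖ := by
      have := Complex.abs_re_le_norm (s + y * I : ℂ)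
      simpa using this
    have hy : |y| ≤ ‖(s + y * I : ℂ)‖ := by
      have := Complex.abs_im_le_norm (s + y * I : ℂ)
      simpa using this
    set ρ : ℝ := ‖(s + y * I : ℂ)‖ with hρ
    have hρ0 : 0 ≤ ρ := norm_nonneg _
    have e1 : (s + y * I : ℂ).im = y := by simp
    rw [e1, x.normG]
    -- replace `y` by `|y|`
    have e2 : ‖x.φ (y + (x.t + s : ℝ) * I)‖ = ‖x.φ ((|y| : ℝ) + (x.t + s : ℝ) * I)‖ := by
      rcases abs_cases y with ⟨h, _⟩ | ⟨h, _⟩
      · rw [h]
      · rw [h, Complex.ofReal_neg, x.φ_refl]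
    have hcl := hC2 x
    have h4 := hcl.line (x := 1) le_rfl (x.t + s) x.t
    rw [show x.t + s - x.t = s by ring] at h4
    push_cast at h4
    have key : ‖x.φ ((|y| : ℝ) + (x.t + s : ℝ) * I)‖ ≤ ‖x.φ (1 + x.t * I)‖ *
        Real.exp (x.Lam / 2 * |y| + (C2 ^ 2 / 4 + 1 + C2 + m + C3) * (1 + ρ ^ 2)) := by
      rcases le_total |y| 1 with h1 | h1
      · have h5 := hcl.strip (z := ((|y| : ℝ) : ℂ) + (x.t + s : ℝ) * I) (by simpa using h1)
        have e3 : (((|y| : ℝ) : ℂ) + (x.t + s : ℝ) * I).im = x.t + s := by simp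
        rw [e3] at h5
        push_cast at h5
        refine le_trans ?_ (h5.trans ?_)
        · push_cast; exact le_rfl
        calc Real.exp (C2 ^ 2 / 4 + 1 ^ 2) * ‖x.φ (1 + (x.t + s) * I)‖
            ≤ Real.exp (C2 ^ 2 / 4 + 1 ^ 2) * (‖x.φ (1 + x.t * I)‖ * Real.exp (C2 * |s|)) := by gcongr
          _ = ‖x.φ (1 + x.t * I)‖ * Real.exp ((C2 ^ 2 / 4 + 1 ^ 2) + C2 * |s|) := by
              rw [Real.exp_add (C2 ^ 2 / 4 + 1 ^ 2) (C2 * |s|)]; ring
          _ ≤ _ := by
              refine mul_le_mul_of_nonneg_left (Real.exp_le_exp.2 ?_) (norm_nonneg _)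
              have : 0 ≤ x.Lam / 2 * |y| := by positivity
              have h6 : C2 * |s| ≤ C2 * (1 + ρ ^ 2) := by
                gcongr
                nlinarith [sq_nonneg (ρ - 1)]
              nlinarith [sq_nonneg ρ, sq_nonneg C2, mul_nonneg (Nat.cast_nonneg (α := ℝ) m) (sq_nonneg ρ),
                mul_nonneg hC30 (sq_nonneg ρ), mul_nonneg (sq_nonneg C2) (sq_nonneg ρ),
                Nat.cast_nonneg (α := ℝ) m]
      · have h5 := path x.φ_diff (z0 := 1 + (x.t + s : ℝ) * I) (z1 := ((|y| : ℝ) : ℂ) + (x.t + s : ℝ) * I)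
          (M := x.Lam / 2 * (|y| - 1) + (m + C3) * (1 + ρ ^ 2)) ?_ ?_
        · refine h5.trans ?_
          push_cast
          calc ‖x.φ (1 + (x.t + s) * I)‖ * Real.exp (x.Lam / 2 * (|y| - 1) + (m + C3) * (1 + ρ ^ 2))
              ≤ (‖x.φ (1 + x.t * I)‖ * Real.exp (C2 * |s|)) *
                Real.exp (x.Lam / 2 * (|y| - 1) + (m + C3) * (1 + ρ ^ 2)) := by gcongr
            _ = ‖x.φ (1 + x.t * I)‖ * Real.exp (C2 * |s| + (x.Lam / 2 * (|y| - 1) +
                (m + C3) * (1 + ρ ^ 2))) := by rw [mul_assoc, ← Real.exp_add]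
            _ ≤ _ := by
                refine mul_le_mul_of_nonneg_left (Real.exp_le_exp.2 ?_) (norm_nonneg _)
                have h6 : C2 * |s| ≤ C2 * (1 + ρ ^ 2) := by
                  gcongr
                  nlinarith [sq_nonneg (ρ - 1)]
                have h7 : x.Lam / 2 * (|y| - 1) ≤ x.Lam / 2 * |y| := by nlinarith
                nlinarith [sq_nonneg ρ, sq_nonneg C2, mul_nonneg (sq_nonneg C2) (sq_nonneg ρ)]
        · intro τ hτ
          refine (hC3 x _ ?_).1
          simp only [add_re, one_re, mul_re, ofReal_re, ofReal_im, I_re, I_im, sub_re, sub_im, add_im,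
            one_im, mul_im]
          nlinarith [hτ.1, hτ.2]
        · intro τ hτ
          set ζ : ℂ := (1 + (x.t + s : ℝ) * I) + τ * ((((|y| : ℝ) : ℂ) + (x.t + s : ℝ) * I) -
            (1 + (x.t + s : ℝ) * I)) with hζ
          have e3 : ζ = ((1 + τ * (|y| - 1) : ℝ) : ℂ) + (x.t + s : ℝ) * I := by
            rw [hζ]; push_cast; ring
          have e4 : ζ.re = 1 + τ * (|y| - 1) := by rw [e3]; simp
          have h6 : 1 ≤ ζ.re := by
            rw [e4]
            have := mul_nonneg hτ.1 (sub_nonneg.2 h1)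
            linarith
          have h7 := (hC3 x ζ (by linarith)).2
          have h8 : ‖ζ - (1 + x.t * I)‖ ≤ 2 * ρ := by
            have e5 : ζ - (1 + x.t * I) = ((τ * (|y| - 1) : ℝ) : ℂ) + (s : ℝ) * I := by
              rw [e3]; push_cast; ring
            rw [e5]
            refine (norm_add_le _ _).trans ?_
            rw [norm_mul (s : ℂ) I, Complex.norm_I, mul_one, Complex.norm_real, Complex.norm_real,
              Real.norm_eq_abs, Real.norm_eq_abs, abs_of_nonneg (mul_nonneg hτ.1 (sub_nonneg.2 h1))]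
            have : τ * (|y| - 1) ≤ |y| := by nlinarith [hτ.1, hτ.2]
            linarith
          have h9 := x.V_up (z := ζ) (q := 2 * ρ) (by positivity) h8 (by linarith)
          have h10 : Real.log (1 + 2 * ρ) ≤ 2 * ρ := by
            have := Real.log_le_sub_one_of_pos (show 0 < 1 + 2 * ρ by positivity)
            linarith
          have h11 : V x.c x.A x.μ ζ ≤ x.Lam / 2 + m * ρ := by
            have : (m : ℝ) / 2 * Real.log (1 + 2 * ρ) ≤ m / 2 * (2 * ρ) := by gcongr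
            linarith
          have h12 : (logDeriv x.φ ζ).re ≤ x.Lam / 2 + m * ρ + C3 := by
            have h13 := (Complex.re_le_norm _).trans h7
            rw [sub_re, ofReal_re] at h13
            linarith
          have e6 : (((|y| : ℝ) : ℂ) + (x.t + s : ℝ) * I) - (1 + (x.t + s : ℝ) * I) =
              ((|y| - 1 : ℝ) : ℂ) := by push_cast; ring
          rw [e6, mul_comm, Complex.re_ofReal_mul]
          have h14 : 0 ≤ |y| - 1 := by linarith
          calc (|y| - 1) * (logDeriv x.φ ζ).re ≤ (|y| - 1) * (x.Lam / 2 + m * ρ + C3) := by gcongr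
            _ = x.Lam / 2 * (|y| - 1) + (|y| - 1) * (m * ρ + C3) := by ring
            _ ≤ x.Lam / 2 * (|y| - 1) + ρ * (m * ρ + C3) := by
                gcongr
                linarith
            _ ≤ _ := by
                have h15 : ρ * C3 ≤ C3 * (1 + ρ ^ 2) := by
                  rw [mul_comm]
                  gcongr
                  nlinarith [sq_nonneg (ρ - 1)]
                have h16 : (0 : ℝ) ≤ m := Nat.cast_nonneg m
                nlinarith
    rw [e2]
    calc ‖x.φ ((|y| : ℝ) + (x.t + s : ℝ) * I)‖ / ‖x.φ (1 + x.t * I)‖ * Real.exp (x.Lam / 2)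
        ≤ (‖x.φ (1 + x.t * I)‖ *
          Real.exp (x.Lam / 2 * |y| + (C2 ^ 2 / 4 + 1 + C2 + m + C3) * (1 + ρ ^ 2))) /
            ‖x.φ (1 + x.t * I)‖ * Real.exp (x.Lam / 2) := by gcongr
      _ = Real.exp (x.Lam / 2 * |y| + (C2 ^ 2 / 4 + 1 + C2 + m + C3) * (1 + ρ ^ 2) + x.Lam / 2) := by
          rw [mul_div_cancel_left₀ _ hn0.ne', ← Real.exp_add]
      _ ≤ _ := by
          gcongr
          have : (C2 ^ 2 / 4 + 1 + C2 + m + C3) * (1 + ρ ^ 2) ≤ η * x.Lam * (1 + ρ ^ 2) := by gcongr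
          linarith
  · intro w h1 h2 h3
    obtain ⟨s, y, rfl⟩ : ∃ s y : ℝ, w = s + y * I := ⟨w.re, w.im, (Complex.re_add_im w).symm⟩
    have e1 : (s + y * I : ℂ).im = y := by simp
    have e2 : (s + y * I : ℂ).re = s := by simp
    rw [e1] at h2 h3
    rw [e2] at h1
    rw [e1, x.normG]
    have hsR : |s| ≤ |R| := h1.trans (le_abs_self R)
    have a1 : ‖(1 + x.t * I : ℂ) - (1 + x.t * I)‖ ≤ 10 + |R| := by
      rw [sub_self, norm_zero]; positivity
    have a2 : ‖(y + (x.t + s : ℝ) * I : ℂ) - (1 + x.t * I)‖ ≤ 10 + |R| := by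
      have e3 : (y + (x.t + s : ℝ) * I : ℂ) - (1 + x.t * I) = ((y - 1 : ℝ) : ℂ) + (s : ℝ) * I := by
        push_cast; ring
      rw [e3]
      refine (norm_add_le _ _).trans ?_
      rw [Complex.norm_real, norm_mul, Complex.norm_I, mul_one, Complex.norm_real,
        Real.norm_eq_abs, Real.norm_eq_abs]
      have : |y - 1| ≤ 10 := by rw [abs_le]; constructor <;> linarith
      linarith
    have a3 : 1 / 2 + η0 ≤ (1 + x.t * I : ℂ).re := by
      simp only [add_re, one_re, mul_re, ofReal_re, ofReal_im, I_re, I_im]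
      linarith
    have a4 : 1 / 2 + η0 ≤ (y + (x.t + s : ℝ) * I : ℂ).re := by
      simp only [add_re, mul_re, ofReal_re, ofReal_im, I_re, I_im]
      linarith
    have r1 : (1 + x.t * I : ℂ).re = 1 := by simp
    have r2 : (y + (x.t + s : ℝ) * I : ℂ).re = y := by simp
    have b1 := hC1 x _ _ a1 a2 a3 a4
    have b2 := hC1 x _ _ a2 a1 a4 a3
    rw [r1, r2] at b1 b2
    constructor
    · have hp : 0 < Real.exp (x.Lam / 2 * (1 - y) + C1) := Real.exp_pos _
      have c1 : Real.exp (-(x.Lam / 2 * (1 - y) + C1)) ≤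
          ‖x.φ (y + (x.t + s : ℝ) * I)‖ / ‖x.φ (1 + x.t * I)‖ := by
        rw [Real.exp_neg, le_div_iff₀ hn0, inv_mul_le_iff₀ hp]
        exact b2.trans (mul_comm _ _).le
      calc Real.exp (x.Lam * (y / 2 - η)) ≤ Real.exp (-(x.Lam / 2 * (1 - y) + C1) + x.Lam / 2) := by
            apply Real.exp_le_exp.2
            nlinarith
        _ = Real.exp (-(x.Lam / 2 * (1 - y) + C1)) * Real.exp (x.Lam / 2) := Real.exp_add _ _
        _ ≤ _ := by gcongr
    · have c1 : ‖x.φ (y + (x.t + s : ℝ) * I)‖ / ‖x.φ (1 + x.t * I)‖ ≤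
          Real.exp (x.Lam / 2 * (y - 1) + C1) := by
        rw [div_le_iff₀ hn0]
        exact b1.trans (mul_comm _ _).le
      calc _ ≤ Real.exp (x.Lam / 2 * (y - 1) + C1) * Real.exp (x.Lam / 2) := by gcongr
        _ = Real.exp (x.Lam / 2 * (y - 1) + C1 + x.Lam / 2) := (Real.exp_add _ _).symm
        _ ≤ _ := by
            apply Real.exp_le_exp.2
            nlinarith

end Pool.Agent.Helper68.LF
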