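import Pool.Agent.Helper68.LF.Law
import Pool.Agent.Helper75.AL.Core
import Pool.Agent.Helper75.AL.Line

/-!
The local law with a window for the bound on the line, and its exact form under a bound on the line.
-/

set_option autoImplicit false
set_option maxHeartbeats 1000000

open Complex MeasureTheory Filter Topology Set
open scoped ComplexConjugate

namespace Pool.Agent.Helper68.LF

open Pool.Agent.Helper75.AL
open Pool.Agent.Helper68.UL

variable {m k : ℕ} {K : ℝ → ℝ}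

/-- comparison on the line `Re z = 1` -/
theorem cmp1 (m k : ℕ) (K : ℝ → ℝ) {q : ℝ} (hq : 0 ≤ q) : ∃ C : ℝ, 0 ≤ C ∧ ∀ x : Idx m k K, ∀ t' : ℝ,
    |t' - x.t| ≤ q → ‖x.φ (1 + x.t * I)‖ ≤ ‖x.φ (1 + t' * I)‖ * Real.exp C ∧
      ‖x.φ (1 + t' * I)‖ ≤ ‖x.φ (1 + x.t * I)‖ * Real.exp C := by
  obtain ⟨C, hC0, hC⟩ := seg m k K (η := 1 / 2) (by norm_num) hq
  refine ⟨C, hC0, fun x t' ht' => ?_⟩
  have a1 : ‖(1 + x.t * I : ℂ) - (1 + x.t * I)‖ ≤ q := by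
    rw [sub_self, norm_zero]
    exact hq
  have a2 : ‖(1 + t' * I : ℂ) - (1 + x.t * I)‖ ≤ q := by
    rw [show (1 + t' * I : ℂ) - (1 + x.t * I) = ((t' - x.t : ℝ) : ℂ) * I by push_cast; ring, norm_mul,
      Complex.norm_I, mul_one, Complex.norm_real]
    exact ht'
  have r1 : (1 + x.t * I : ℂ).re = 1 := by simp
  have r2 : (1 + t' * I : ℂ).re = 1 := by simp
  have b1 := hC x _ _ a1 a2 (by rw [r1]; norm_num) (by rw [r2]; norm_num)
  have b2 := hC x _ _ a2 a1 (by rw [r2]; norm_num) (by rw [r1]; norm_num)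
  rw [r1, r2, sub_self, mul_zero, zero_add] at b1 b2
  exact ⟨b2, b1⟩

lemma Idx.norm_line (x : Idx m k K) (s : ℝ) :
    ‖x.φ ((x.t + s : ℝ) * I)‖ = ‖x.G s‖ * ‖x.φ (1 + x.t * I)‖ * Real.exp (-(x.Lam / 2)) := by
  have h4 := x.normG s 0
  rw [Complex.ofReal_zero, zero_mul, add_zero, zero_add] at h4
  have h0 : ‖x.φ (1 + x.t * I)‖ ≠ 0 := norm_ne_zero_iff.2 x.φ_one_ne
  have h5 := (Real.exp_pos (x.Lam / 2)).ne'
  rw [h4, Real.exp_neg]
  generalize ‖x.φ (((x.t + s : ℝ) : ℂ) * I)‖ = A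
  generalize ‖x.φ (1 + x.t * I)‖ = B at h0 ⊢
  field_simp

/-- zeros from the abstract statement -/
lemma box_of {x : ℕ → Idx m k K} {b B : ℝ} (hb : b < B) (h : ANoZ b fun j => (x j).G) :
    ∀ᶠ j in atTop, ∀ z : ℂ, |z.im - (x j).t| ≤ 1 → B < |z.re| → (x j).φ z ≠ 0 := by
  obtain ⟨C, _, hC⟩ := ld m k K (η := 1 / 2) (by norm_num)
  filter_upwards [h (B - b) (by linarith) 1] with j hj2 z hz1 hz2 h0
  have h0' : ‖(x j).φ ((|z.re| : ℝ) + z.im * I)‖ = 0 := by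
    rw [(x j).φ_abs, Complex.re_add_im, h0, norm_zero]
  rcases le_or_gt |z.re| 1 with h3 | h3
  · have h4 := hj2 (((z.im - (x j).t : ℝ) : ℂ) + (|z.re| : ℝ) * I) (by simpa using hz1)
      (by simp only [add_im, ofReal_im, mul_im, ofReal_re, I_im, I_re]; linarith) (by simpa using h3)
    apply h4
    rw [← norm_eq_zero, (x j).normG, show (x j).t + (z.im - (x j).t) = z.im by ring, h0']
    simp
  · have h4 := (hC (x j) (((|z.re| : ℝ) : ℂ) + z.im * I) (by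
      simp only [add_re, ofReal_re, mul_re, ofReal_im, I_re, I_im]; linarith)).1
    exact h4 (norm_eq_zero.1 h0')

/-- the Laguerre inequalities of the orders `n ≥ κ Λ` near `t` -/
def LN (x : Idx m k K) (κ R : ℝ) : Prop :=
  ∀ (t' : ℝ) (n : ℕ), |t' - x.t| ≤ R → κ * x.Lam ≤ n → 0 ≤ Pool.Agent.Helper68.UL.Lag x.φ n t'

/-- the bound on the line near `t` -/
def BN (x : Idx m k K) (a R : ℝ) : Prop := ∀ t' : ℝ, |t' - x.t| ≤ R →
  ‖x.φ (t' * I)‖ ≤ ‖x.φ (1 + t' * I)‖ * Real.exp (x.Lam * (a - 1 / 2))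

lemma alag_of {x : ℕ → Idx m k K} {κ : ℝ} (h : ∀ j : ℕ, LN (x j) κ j) :
    ALag κ (fun j => (x j).G) (fun j => (x j).Lam) := by
  intro η hη R
  filter_upwards [eventually_ge_atTop ⌈R⌉₊] with j hj s hs n hn
  have hR : R ≤ (j : ℝ) := (Nat.le_ceil _).trans (by exact_mod_cast hj)
  rw [((x j).Lag_sgn s n).1]
  refine h j ((x j).t + s) n (by rw [add_sub_cancel_left]; linarith) (le_trans ?_ hn)
  have := (x j).Lam_nonneg
  nlinarith

lemma aline_of {x : ℕ → Idx m k K} {a : ℝ} (hlim : Tendsto (fun j => (x j).Lam) atTop atTop)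
    (h : ∀ j : ℕ, BN (x j) a j) : ALine a (fun j => (x j).G) (fun j => (x j).Lam) := by
  intro η hη R
  obtain ⟨C, hC0, hC⟩ := cmp1 m k K (q := |R|) (abs_nonneg R)
  filter_upwards [eventually_ge_atTop ⌈R⌉₊, hlim.eventually_ge_atTop (C / η)] with j hj hjL s hs
  have hR : R ≤ (j : ℝ) := (Nat.le_ceil _).trans (by exact_mod_cast hj)
  rw [div_le_iff₀ hη] at hjL
  have h1 := h j ((x j).t + s) (by rw [add_sub_cancel_left]; linarith)
  have h2 := (hC (x j) ((x j).t + s) (by rw [add_sub_cancel_left]; exact hs.trans (le_abs_self R))).2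
  rw [(x j).norm_line s] at h1
  have hpos : 0 < ‖(x j).φ (1 + (x j).t * I)‖ := norm_pos_iff.2 (x j).φ_one_ne
  have h3 : ‖(x j).G s‖ * ‖(x j).φ (1 + (x j).t * I)‖ * Real.exp (-((x j).Lam / 2)) ≤
      ‖(x j).φ (1 + (x j).t * I)‖ * Real.exp C * Real.exp ((x j).Lam * (a - 1 / 2)) :=
    h1.trans (by gcongr)
  have h4 : ‖(x j).G s‖ * Real.exp (-((x j).Lam / 2)) ≤ Real.exp (C + (x j).Lam * (a - 1 / 2)) := by
    rw [Real.exp_add]
    have e1 : ‖(x j).G s‖ * ‖(x j).φ (1 + (x j).t * I)‖ * Real.exp (-((x j).Lam / 2)) =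
      ‖(x j).φ (1 + (x j).t * I)‖ * (‖(x j).G s‖ * Real.exp (-((x j).Lam / 2))) := by ring
    rw [e1, mul_assoc ‖(x j).φ (1 + (x j).t * I)‖] at h3
    exact le_of_mul_le_mul_left h3 hpos
  have h5 : ‖(x j).G s‖ ≤ Real.exp (C + (x j).Lam * (a - 1 / 2) + (x j).Lam / 2) := by
    rw [Real.exp_add _ ((x j).Lam / 2)]
    rw [Real.exp_neg, ← div_eq_mul_inv, div_le_iff₀ (Real.exp_pos _)] at h4
    exact h4
  refine h5.trans (Real.exp_le_exp.2 ?_)
  linarith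

lemma anoz_of {x : ℕ → Idx m k K} {b : ℝ} (h : ∀ (j : ℕ) (z : ℂ), |z.im - (x j).t| ≤ j → b < |z.re| →
    (x j).φ z ≠ 0) (hb : 0 ≤ b) : ANoZ b (fun j => (x j).G) := by
  intro η hη R
  filter_upwards [eventually_ge_atTop ⌈R⌉₊] with j hj w hw1 hw2 hw3 h0
  have hR : R ≤ (j : ℝ) := (Nat.le_ceil _).trans (by exact_mod_cast hj)
  have hw : w = ((w.re : ℝ) : ℂ) + (w.im : ℝ) * I := (Complex.re_add_im w).symm
  rw [hw, ← norm_eq_zero, (x j).normG, mul_eq_zero, div_eq_zero_iff] at h0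
  rcases h0 with (h0 | h0) | h0
  · refine h j (((w.im : ℝ) : ℂ) + ((x j).t + w.re : ℝ) * I) ?_ ?_ (norm_eq_zero.1 h0)
    · simp only [add_im, ofReal_im, mul_im, ofReal_re, I_im, I_re]
      rw [show 0 + (((x j).t + w.re) * 1 + 0 * 0) - (x j).t = w.re by ring]
      linarith
    · simp only [add_re, ofReal_re, mul_re, ofReal_im, I_re, I_im]
      rw [abs_of_pos (by linarith)]
      linarith
  · exact absurd h0 (norm_ne_zero_iff.2 (x j).φ_one_ne)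
  · exact absurd h0 (Real.exp_pos _).ne'

/-- the bound on the line from the abstract statement -/
lemma bn_of {x : ℕ → Idx m k K} {a a' : ℝ} (ha : a < a') (hlim : Tendsto (fun j => (x j).Lam) atTop atTop)
    (h : ALine a (fun j => (x j).G) (fun j => (x j).Lam)) : ∀ᶠ j in atTop, BN (x j) a' 1 := by
  obtain ⟨C, hC0, hC⟩ := cmp1 m k K (q := 1) zero_le_one
  have hd : 0 < (a' - a) / 2 := by linarith
  filter_upwards [h ((a' - a) / 2) hd 1, hlim.eventually_ge_atTop (C / ((a' - a) / 2))] with j hj1 hj3 t' ht'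
  rw [div_le_iff₀ hd] at hj3
  have h3 := hj1 (t' - (x j).t) ht'
  have h4 := (x j).norm_line (t' - (x j).t)
  rw [show (x j).t + (t' - (x j).t) = t' by ring] at h4
  rw [h4]
  have h5 := (hC (x j) t' ht').1
  calc ‖(x j).G ((t' - (x j).t : ℝ) : ℂ)‖ * ‖(x j).φ (1 + (x j).t * I)‖ * Real.exp (-((x j).Lam / 2))
      ≤ Real.exp ((x j).Lam * (a + (a' - a) / 2)) * (‖(x j).φ (1 + t' * I)‖ * Real.exp C) *
        Real.exp (-((x j).Lam / 2)) := by gcongr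
    _ = ‖(x j).φ (1 + t' * I)‖ * Real.exp ((x j).Lam * (a + (a' - a) / 2) + C + -((x j).Lam / 2)) := by
        rw [Real.exp_add, Real.exp_add]
        ring
    _ ≤ _ := by
        refine mul_le_mul_of_nonneg_left (Real.exp_le_exp.2 ?_) (norm_nonneg _)
        linarith

/-- **Laguerre inequalities give a zero-free box and a bound on the line.** -/
theorem conv' {K0 : ℝ} (hK0 : 0 < K0) (hAL : ∀ (G : ℕ → ℂ → ℂ) (L : ℕ → ℝ) (κ : ℝ), AG G L → 0 ≤ κ →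
    ALag κ G L → ALine (K0 * κ) G L ∧ ANoZ (K0 * κ) G) (m k : ℕ) (K : ℝ → ℝ) {κ : ℝ} (hκ : 0 < κ) :
    ∃ R : ℝ, ∀ x : Idx m k K, R ≤ x.Lam → LN x κ R →
        (∀ z : ℂ, |z.im - x.t| ≤ 1 → 2 * K0 * κ < |z.re| → x.φ z ≠ 0) ∧ BN x (2 * K0 * κ) 1 := by
  by_contra hcon
  push Not at hcon
  choose x hx1 hx2 hx3 using fun j : ℕ => hcon (j : ℝ)
  have hlim : Tendsto (fun j => (x j).Lam) atTop atTop :=
    tendsto_atTop_mono hx1 tendsto_natCast_atTop_atTop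
  obtain ⟨h1, h2⟩ := hAL _ _ κ (ag_of x hlim) hκ.le (alag_of hx2)
  have hKκ : 0 < K0 * κ := mul_pos hK0 hκ
  obtain ⟨j, hj1, hj2⟩ := ((bn_of (a' := 2 * K0 * κ) (by linarith) hlim h1).and
    (box_of (b := K0 * κ) (B := 2 * K0 * κ) (by linarith) h2)).exists
  exact hx3 j hj2 hj1

/-- **The sharp form.** -/
theorem sharp (hW2 : St_W2) (hW3 : St_W3) (m k : ℕ) (K : ℝ → ℝ) {a κ b : ℝ} (ha0 : 0 ≤ a) (hκ : 0 ≤ κ)
    (hb : 2 * κ + 2 * a < b) : ∃ R : ℝ, ∀ x : Idx m k K, R ≤ x.Lam → LN x κ R → BN x a R →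
        (∀ z : ℂ, |z.im - x.t| ≤ 1 → b < |z.re| → x.φ z ≠ 0) := by
  by_contra hcon
  push Not at hcon
  choose x hx1 hx2 hx3 z hz1 hz2 hz3 using fun j : ℕ => hcon (j : ℝ)
  have hlim : Tendsto (fun j => (x j).Lam) atTop atTop :=
    tendsto_atTop_mono hx1 tendsto_natCast_atTop_atTop
  have h0 := ag_of x hlim
  have h1 : ∃ b' : ℝ, b' < b ∧ ANoZ b' (fun j => (x j).G) := by
    rcases le_total a (1 / 2) with h | h
    · exact ⟨2 * a + 2 * κ, by linarith, noz_sharp hW2 hW3 h0 ha0 h hκ (aline_of hlim hx3) (alag_of hx2)⟩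
    · exact ⟨1 / 2, by linarith, h0.noZ_half⟩
  obtain ⟨b', hb', h2⟩ := h1
  obtain ⟨j, hj⟩ := (box_of hb' h2).exists
  exact hj (z j) (hz1 j) (hz2 j) (hz3 j)

/-- **A zero-free box gives the bound on the line.** -/
theorem direct_line (m k : ℕ) (K : ℝ → ℝ) {b κ : ℝ} (hb : 0 ≤ b) (hbκ : b < 2 * κ) :
    ∃ R : ℝ, ∀ x : Idx m k K, R ≤ x.Lam →
      (∀ z : ℂ, |z.im - x.t| ≤ R → b < |z.re| → x.φ z ≠ 0) → BN x κ 1 := by
  by_contra hcon
  push Not at hcon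
  choose x hx1 hx2 hx3 using fun j : ℕ => hcon (j : ℝ)
  have hlim : Tendsto (fun j => (x j).Lam) atTop atTop :=
    tendsto_atTop_mono hx1 tendsto_natCast_atTop_atTop
  have h0 := ag_of x hlim
  have h1 : ∃ b' : ℝ, 0 ≤ b' ∧ b' ≤ 1 / 2 ∧ b' < 2 * κ ∧ ANoZ b' (fun j => (x j).G) := by
    rcases le_total b (1 / 2) with h | h
    · exact ⟨b, hb, h, hbκ, anoz_of hx2 hb⟩
    · exact ⟨1 / 2, by norm_num, le_rfl, by linarith, h0.noZ_half⟩
  obtain ⟨b', h2, h3, h4, h5⟩ := h1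
  obtain ⟨j, hj⟩ := (bn_of (a := b' / 2) (a' := κ) (by linarith) hlim (line_of_noz h0 h2 h3 h5)).exists
  exact hx3 j hj

end Pool.Agent.Helper68.LF
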